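import Pool.Agent.Helper15.AF.Goals1
import Mathlib.FieldTheory.Finite.GaloisField
import Mathlib.FieldTheory.PrimitiveElement

/-!
# Project AF (MP_34c247_lc): packet PRM, a feedback vector with the full period
-/

set_option autoImplicit false

namespace Pool.Agent.Helper18.AF

open Pool.Agent.Helper51.ZP Pool.Agent.Helper15.AF

theorem vk_ofBits {k : ℕ} (l : List Bool) (hl : l.length = k) :
    vk k (Nat.ofBits fun j : Fin k => l[(j : ℕ)]'(by rw [hl]; exact j.2)) = l := by
  unfold vk
  apply List.ext_getElem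
  · simp [hl]
  · intro i h1 h2
    have hi : i < k := by simpa using h1
    rw [List.getElem_map, List.getElem_range, ← Nat.testBit_eq_decide_div_mod_eq,
      Nat.testBit_ofBits_lt _ _ hi]

theorem find_full {k : ℕ} (h : ∃ l : List Bool, l.length = k ∧ full k l = true) :
    (findc k).length = k ∧ full k (findc k) = true := by
  obtain ⟨l, hl, hf⟩ := h
  refine ⟨by simp [findc, vk], ?_⟩
  have h1 : ((List.range (2 ^ k)).find? fun i => full k (vk k i)).isSome = true := by
    rw [List.find?_isSome]
    refine ⟨Nat.ofBits fun j : Fin k => l[(j : ℕ)]'(by rw [hl]; exact j.2), ?_, ?_⟩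
    · rw [List.mem_range]
      exact Nat.ofBits_lt_two_pow _
    · rw [vk_ofBits l hl]
      exact hf
  obtain ⟨i, hi⟩ := Option.isSome_iff_exists.mp h1
  have h2 := List.find?_some hi
  unfold findc
  rw [hi]
  exact h2

theorem exists_full_of (k : ℕ) (hk : 1 ≤ k) (F : Type) [Field F] [Finite F] [Algebra (ZMod 2) F]
    (hfr : Module.finrank (ZMod 2) F = k) (hcard : Nat.card F = 2 ^ k) :
    ∃ l : List Bool, l.length = k ∧ full k l = true := by
  classical
  have : Fact (Nat.Prime 2) := ⟨Nat.prime_two⟩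
  have : Fintype F := Fintype.ofFinite F
  obtain ⟨g, hg⟩ := IsCyclic.exists_generator (α := Fˣ)
  have hord : orderOf g = Qk k := by
    rw [orderOf_eq_card_of_forall_mem_zpowers hg, Nat.card_units, hcard]
    rfl
  have htop : IntermediateField.adjoin (ZMod 2) {(g : F)} = ⊤ := by
    rw [eq_top_iff]
    intro x _
    rcases eq_or_ne x 0 with rfl | hx
    · exact zero_mem _
    · obtain ⟨n, hn⟩ := Subgroup.mem_zpowers_iff.mp (hg (Units.mk0 x hx))
      have h1 : x = (g : F) ^ n := by
        rw [← Units.val_zpow_eq_zpow_val, hn, Units.val_mk0]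
      rw [h1]
      exact zpow_mem (IntermediateField.mem_adjoin_simple_self _ _) n
  have hdeg : (minpoly (ZMod 2) (g : F)).natDegree = k := by
    exact ((Field.primitive_element_iff_minpoly_natDegree_eq (ZMod 2) (g : F)).mp htop).trans hfr
  have hli0 := linearIndependent_pow (K := ZMod 2) (g : F)
  have hli : LinearIndependent (ZMod 2) fun i : Fin k => (g : F) ^ (i : ℕ) := by
    rw [hdeg] at hli0
    exact hli0
  have : Nonempty (Fin k) := ⟨⟨0, hk⟩⟩
  let b := basisOfLinearIndependentOfCardEqFinrank hli (by rw [Fintype.card_fin, hfr])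
  have hb : ∀ i : Fin k, b i = (g : F) ^ (i : ℕ) := by
    intro i
    exact congrFun (coe_basisOfLinearIndependentOfCardEqFinrank hli _) i
  let φ : F →ₗ[ZMod 2] ZMod 2 := b.coord ⟨0, hk⟩
  have hφ : ∀ j, j < k → φ ((g : F) ^ j) = if j = 0 then 1 else 0 := by
    intro j hj
    have h1 : (g : F) ^ j = b ⟨j, hj⟩ := (hb ⟨j, hj⟩).symm
    rw [h1]
    change b.coord ⟨0, hk⟩ (b ⟨j, hj⟩) = _
    rw [Module.Basis.coord_apply, Module.Basis.repr_self, Finsupp.single_apply]
    simp only [Fin.mk.injEq]
  obtain ⟨c, hc⟩ := powGen_rec hfr (g : F)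
  let y : ℕ → ZMod 2 := fun i => φ ((g : F) ^ i)
  have hy : ∀ i, y (i + k) = ∑ j ∈ Finset.range k, c j * y (i + j) := hc φ
  have hs0 : s0 k = (List.range k).map fun j => z2b (y j) := by
    unfold s0
    apply List.map_congr_left
    intro j hj
    rw [List.mem_range] at hj
    change _ = z2b (φ ((g : F) ^ j))
    rw [hφ j hj]
    by_cases h : j = 0
    · simp [h, z2b]
    · simp [h, z2b]
  have hit := iter_stp (show 0 < k from hk) c y hy
  refine ⟨(List.range k).map fun j => z2b (c j), by simp, ?_⟩
  unfold full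
  rw [Bool.and_eq_true]
  constructor
  · rw [decide_eq_true_eq, hs0, hit]
    apply List.map_congr_left
    intro j _
    change z2b (φ ((g : F) ^ (Qk k + j))) = z2b (φ ((g : F) ^ j))
    have h1 : (g : F) ^ Qk k = 1 := by
      rw [← hord, ← Units.val_pow_eq_pow_val, pow_orderOf_eq_one, Units.val_one]
    rw [pow_add, h1, one_mul]
  · rw [List.all_eq_true]
    intro i hi
    rw [List.mem_range] at hi
    rw [decide_eq_true_eq]
    by_contra hcon
    rw [not_or, not_not] at hcon
    obtain ⟨hi0, hst⟩ := hcon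
    rw [hs0, hit] at hst
    have h1 : ∀ j, j < k → φ ((g : F) ^ i * (g : F) ^ j) = φ ((g : F) ^ j) := by
      intro j hj
      have h2 := List.map_inj_left.mp hst j (List.mem_range.mpr hj)
      have h3 := congrArg b2z h2
      rw [b2z_z2b, b2z_z2b] at h3
      rw [← pow_add]
      exact h3
    have h2 : φ ∘ₗ (LinearMap.mulLeft (ZMod 2) ((g : F) ^ i)) = φ := by
      apply b.ext
      intro j
      rw [LinearMap.comp_apply, LinearMap.mulLeft_apply, hb]
      exact h1 j j.2
    have h3 : (g : F) ^ i - 1 ≠ 0 := by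
      intro h4
      have h5 : g ^ i = 1 := by
        apply Units.ext
        rw [Units.val_pow_eq_pow_val, Units.val_one]
        exact sub_eq_zero.mp h4
      have h6 := orderOf_le_of_pow_eq_one (Nat.pos_of_ne_zero hi0) h5
      omega
    have h4 := LinearMap.congr_fun h2 ((g : F) ^ i - 1)⁻¹
    rw [LinearMap.comp_apply, LinearMap.mulLeft_apply, ← sub_eq_zero, ← map_sub] at h4
    have h5 : (g : F) ^ i * ((g : F) ^ i - 1)⁻¹ - ((g : F) ^ i - 1)⁻¹ = (g : F) ^ 0 := by
      rw [pow_zero, ← sub_one_mul, mul_inv_cancel₀ h3]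
    rw [h5, hφ 0 hk] at h4
    simp at h4

theorem exists_full (k : ℕ) (hk : 1 ≤ k) : ∃ l : List Bool, l.length = k ∧ full k l = true :=
  have : Fact (Nat.Prime 2) := ⟨Nat.prime_two⟩
  exists_full_of k hk (GaloisField 2 k) (GaloisField.finrank 2 (by omega))
    (GaloisField.card 2 k (by omega))

theorem prm : PrmStmt := fun k hk => find_full (exists_full k hk)

end Pool.Agent.Helper18.AF
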