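import Pool.Agent.Helper26.AF.Goals

/-!
Project AF (MP_af6c86_pr), packet DELG: deletion of an edge does not raise the genus.
-/

open Pool.Agent.Helper26.AF

namespace Pool.Agent.Helper18.AF

open Finset

/-- Conjugate permutations: powers. -/
theorem zpow_semi {A B : Type} (E : A ≃ B) (ρ : Equiv.Perm A) (π : Equiv.Perm B)
    (h : ∀ a, E (ρ a) = π (E a)) (i : ℤ) (a : A) : E ((ρ ^ i) a) = (π ^ i) (E a) := by
  have h1 : π = E.permCongrHom ρ := by
    ext b
    have := h (E.symm b)
    rw [Equiv.apply_symm_apply] at this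
    rw [← this]
    rfl
  rw [h1, ← map_zpow]
  show _ = E ((ρ ^ i) (E.symm (E a)))
  rw [Equiv.symm_apply_apply]

theorem sameCycle_semi {A B : Type} (E : A ≃ B) (ρ : Equiv.Perm A) (π : Equiv.Perm B)
    (h : ∀ a, E (ρ a) = π (E a)) (a b : A) : ρ.SameCycle a b ↔ π.SameCycle (E a) (E b) := by
  constructor
  · rintro ⟨i, hi⟩
    exact ⟨i, by rw [← zpow_semi E ρ π h, hi]⟩
  · rintro ⟨i, hi⟩
    refine ⟨i, E.injective ?_⟩
    rw [zpow_semi E ρ π h, hi]

theorem orb_semi {A B : Type} (E : A ≃ B) (ρ : Equiv.Perm A) (π : Equiv.Perm B)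
    (h : ∀ a, E (ρ a) = π (E a)) : orb ρ = orb π := by
  unfold orb
  exact Nat.card_congr (Quotient.congr E (fun a b => sameCycle_semi E ρ π h a b))

variable {V : Type}

theorem fst_of_sameCycle {G : SimpleGraph V} {σ : Equiv.Perm G.Dart}
    (h : ∀ d, (σ d).fst = d.fst) {a b : G.Dart} (hab : σ.SameCycle a b) : a.fst = b.fst := by
  obtain ⟨i, hi⟩ := hab
  rw [← hi]
  have key : ∀ (n : ℕ) (x : G.Dart), ((σ ^ n) x).fst = x.fst := by
    intro n
    induction n with
    | zero => intro x; rfl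
    | succ n ih =>
      intro x
      rw [pow_succ, Equiv.Perm.mul_apply, ih, h]
  rcases Int.eq_nat_or_neg i with ⟨n, rfl | rfl⟩
  · rw [zpow_natCast, key]
  · rw [zpow_neg, zpow_natCast]
    have := key n (((σ ^ n)⁻¹) a)
    have h2 : (σ ^ n) (((σ ^ n)⁻¹) a) = a := (σ ^ n).apply_symm_apply a
    rw [h2] at this
    exact this

/-- The darts of `G - e`. -/
noncomputable def dEquiv [DecidableEq V] (G : SimpleGraph V) (u v : V) (h : G.Adj u v) :
    (G.deleteEdges {s(u, v)}).Dart ≃
      {x : G.Dart // x ≠ ⟨(u, v), h⟩ ∧ x ≠ rev G ⟨(u, v), h⟩} where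
  toFun x := ⟨⟨x.toProd, (SimpleGraph.deleteEdges_adj.1 x.adj).1⟩, by
    have h2 := (SimpleGraph.deleteEdges_adj.1 x.adj).2
    rw [Set.mem_singleton_iff] at h2
    constructor
    · intro h3
      apply h2
      have h4 : x.toProd = (u, v) := congrArg SimpleGraph.Dart.toProd h3
      show s(x.toProd.1, x.toProd.2) = s(u, v)
      rw [h4]
    · intro h3
      apply h2
      have h4 : x.toProd = (v, u) := congrArg SimpleGraph.Dart.toProd h3
      show s(x.toProd.1, x.toProd.2) = s(u, v)
      rw [h4]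
      exact Sym2.eq_swap⟩
  invFun y := ⟨y.1.toProd, by
    rw [SimpleGraph.deleteEdges_adj, Set.mem_singleton_iff]
    refine ⟨y.1.adj, fun h3 => ?_⟩
    have h4 : s(y.1.toProd.1, y.1.toProd.2) = s(u, v) := h3
    rw [Sym2.eq_iff] at h4
    rcases h4 with ⟨h5, h6⟩ | ⟨h5, h6⟩
    · exact y.2.1 (SimpleGraph.Dart.ext _ _ (Prod.ext h5 h6))
    · exact y.2.2 (SimpleGraph.Dart.ext _ _ (Prod.ext h5 h6))⟩
  left_inv x := rfl
  right_inv y := rfl

theorem dEquiv_apply [DecidableEq V] (G : SimpleGraph V) (u v : V) (h : G.Adj u v)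
    (x : (G.deleteEdges {s(u, v)}).Dart) : (dEquiv G u v h x).1.toProd = x.toProd := rfl

theorem rev_pair (G : SimpleGraph V) : IsPair (rev G) := by
  intro x
  refine ⟨SimpleGraph.Dart.symm_symm x, fun h => ?_⟩
  have h1 : x.snd = x.fst := congrArg (fun y : G.Dart => y.fst) h
  exact x.adj.ne h1.symm

/-- Isolated vertices. -/
theorem iso_count [Fintype V] [DecidableEq V] (P P' : V → Prop) (u v : V) (huv : u ≠ v)
    (hu : ¬ P u) (hv : ¬ P v) (h : ∀ w, w ≠ u → w ≠ v → (P' w ↔ P w)) [Decidable (P' u)]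
    [Decidable (P' v)] :
    Nat.card {w // P' w} = Nat.card {w // P w} + (if P' u then 1 else 0) +
      (if P' v then 1 else 0) := by
  classical
  rw [Nat.card_eq_fintype_card, Nat.card_eq_fintype_card, Fintype.card_subtype,
    Fintype.card_subtype, Finset.card_filter, Finset.card_filter]
  have e1 : ∀ w : V, (if P' w then 1 else 0) = (if P w then 1 else 0) +
      (if w = u then (if P' u then 1 else 0) else 0) +
      (if w = v then (if P' v then 1 else 0) else 0) := by
    intro w
    by_cases hwu : w = u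
    · subst hwu
      simp [hu, huv]
    · by_cases hwv : w = v
      · subst hwv
        simp [hv, hwu]
      · simp [hwu, hwv, h w hwu hwv]
  rw [Finset.sum_congr rfl fun w _ => e1 w, Finset.sum_add_distrib, Finset.sum_add_distrib,
    Finset.sum_ite_eq', Finset.sum_ite_eq']
  simp

theorem goalDELG (hSWAP : StmtSWAP) (hDEL : StmtDEL) (hBRC : StmtBRC) (hCCN : StmtCCN) :
    StmtDELG := by
  classical
  intro V _ _ G g u v huv hG
  obtain ⟨σ, hσ, hineq⟩ := hG
  set G' := G.deleteEdges {s(u, v)} with hG'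
  set d : G.Dart := ⟨(u, v), huv⟩ with hd
  set d' : G.Dart := rev G d with hd'
  have hd1 : d.fst = u := rfl
  have hd1' : d'.fst = v := rfl
  have hneuv : u ≠ v := huv.ne
  have h1 : σ d ≠ rev G d := by
    intro h
    have := hσ.src d
    rw [h] at this
    exact hneuv (hd1.symm.trans (this.symm.trans hd1'))
  have h2 : σ (rev G d) ≠ d := by
    intro h
    have := hσ.src (rev G d)
    rw [h] at this
    exact hneuv (hd1.symm.trans (this.trans hd1'))
  obtain ⟨σ', hcyc, horb⟩ := hDEL G.Dart σ (rev G) (rev_pair G) d h1 h2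
  set E := dEquiv G u v huv with hE
  -- the new rotation system
  set σ₁ : Equiv.Perm G'.Dart := (E.trans σ').trans E.symm with hσ₁
  have hE1 : ∀ x, E (σ₁ x) = σ' (E x) := fun x => by
    rw [hσ₁]
    show E (E.symm (σ' (E x))) = _
    rw [Equiv.apply_symm_apply]
  set τ' : Equiv.Perm {x : G.Dart // x ≠ d ∧ x ≠ rev G d} :=
    (E.symm.trans (rev G')).trans E with hτ'
  have hτ1 : ∀ x, (τ' x).1 = rev G x.1 := fun x => rfl
  have hE2 : ∀ x, E ((σ₁ * rev G') x) = (σ' * τ') (E x) := by
    intro x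
    rw [Equiv.Perm.mul_apply, hE1, Equiv.Perm.mul_apply]
    congr 1
  have hrot : IsRot G' σ₁ := by
    constructor
    · intro x
      have a1 : σ'.SameCycle (E x) (E (σ₁ x)) := by
        rw [hE1]; exact ⟨1, by simp⟩
      have a2 := (hcyc _ _).1 a1
      exact (fst_of_sameCycle hσ.src a2).symm
    · intro x y hxy
      rw [sameCycle_semi E σ₁ σ' hE1, hcyc]
      exact hσ.cyc _ _ hxy
  have horb2 : orb (σ₁ * rev G') = orb (σ' * τ') := orb_semi E _ _ hE2
  -- isolated vertices
  have hadj : ∀ a b, G'.Adj a b ↔ G.Adj a b ∧ s(a, b) ≠ s(u, v) := by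
    intro a b
    rw [hG', SimpleGraph.deleteEdges_adj, Set.mem_singleton_iff]
  have fu : σ d = d ↔ ∀ w, ¬ G'.Adj u w := by
    constructor
    · intro h w hw
      have b1 := (hadj u w).1 hw
      have b2 : σ.SameCycle d ⟨(u, w), b1.1⟩ := hσ.cyc _ _ rfl
      have b3 : (⟨(u, w), b1.1⟩ : G.Dart) = d := by
        obtain ⟨i, hi⟩ := b2
        rw [← hi]
        exact Equiv.Perm.zpow_apply_eq_self_of_apply_eq_self h i
      have b4 : w = v := congrArg (fun y : G.Dart => y.snd) b3
      exact b1.2 (by rw [b4])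
    · intro h
      have b1 : (σ d).fst = u := hσ.src d
      have b2 : G.Adj (σ d).fst (σ d).snd := (σ d).adj
      have b3 : (σ d).snd = v := by
        by_contra hne
        apply h (σ d).snd
        rw [hadj]
        refine ⟨b1 ▸ b2, fun h4 => ?_⟩
        rw [Sym2.eq_iff] at h4
        rcases h4 with ⟨_, h5⟩ | ⟨h5, _⟩
        · exact hne h5
        · exact hneuv h5
      exact SimpleGraph.Dart.ext _ _ (Prod.ext b1 b3)
  have fv : σ (rev G d) = rev G d ↔ ∀ w, ¬ G'.Adj v w := by
    constructor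
    · intro h w hw
      have b1 := (hadj v w).1 hw
      have b2 : σ.SameCycle (rev G d) ⟨(v, w), b1.1⟩ := hσ.cyc _ _ rfl
      have b3 : (⟨(v, w), b1.1⟩ : G.Dart) = rev G d := by
        obtain ⟨i, hi⟩ := b2
        rw [← hi]
        exact Equiv.Perm.zpow_apply_eq_self_of_apply_eq_self h i
      have b4 : w = u := congrArg (fun y : G.Dart => y.snd) b3
      exact b1.2 (by rw [b4]; exact Sym2.eq_swap)
    · intro h
      have b1 : (σ (rev G d)).fst = v := hσ.src _
      have b2 : G.Adj (σ (rev G d)).fst (σ (rev G d)).snd := (σ (rev G d)).adj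
      have b3 : (σ (rev G d)).snd = u := by
        by_contra hne
        apply h (σ (rev G d)).snd
        rw [hadj]
        refine ⟨b1 ▸ b2, fun h4 => ?_⟩
        rw [Sym2.eq_iff] at h4
        rcases h4 with ⟨h5, _⟩ | ⟨_, h5⟩
        · exact hneuv h5.symm
        · exact hne h5
      exact SimpleGraph.Dart.ext _ _ (Prod.ext b1 b3)
  have hiso := iso_count (fun w => ∀ x, ¬ G.Adj w x) (fun w => ∀ x, ¬ G'.Adj w x) u v hneuv
    (fun h => h v huv) (fun h => h u huv.symm) (by
      intro w hwu hwv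
      refine forall_congr' fun x => not_congr ?_
      rw [hadj]
      refine ⟨fun h => h.1, fun h => ⟨h, fun h4 => ?_⟩⟩
      rw [Sym2.eq_iff] at h4
      rcases h4 with ⟨h5, _⟩ | ⟨h5, _⟩
      · exact hwu h5
      · exact hwv h5)
  have horb3 := horb τ' hτ1
  have hf : faces G' σ₁ = orb (σ * rev G * Equiv.swap d (rev G d)) +
      Nat.card {w : V // ∀ x, ¬ G.Adj w x} := by
    unfold faces
    rw [horb2, hiso, ← horb3]
    simp only [fu, fv]
    omega
  have hf0 : faces G σ = orb (σ * rev G) + Nat.card {w : V // ∀ x, ¬ G.Adj w x} := rfl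
  -- edges
  have hne : ne G = ne G' + 1 := by
    unfold ne
    rw [hG', SimpleGraph.edgeSet_deleteEdges]
    have hmem : s(u, v) ∈ G.edgeSet := huv
    exact (Set.ncard_sdiff_singleton_add_one hmem (Set.toFinite _)).symm
  have hdd : d ≠ rev G d := fun h => (rev_pair G d).2 h.symm
  have hsw := hSWAP G.Dart (σ * rev G) d (rev G d) hdd
  have hcc := hCCN V G u v huv
  refine ⟨σ₁, hrot, ?_⟩
  by_cases hr : G'.Reachable u v
  · have c1 := hcc.1 hr
    by_cases hs : (σ * rev G).SameCycle d (rev G d)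
    · have c2 := hsw.1 hs
      rw [← hG'] at c1
      rw [c1, hf, c2]
      rw [hne, hf0] at hineq
      omega
    · have c2 := hsw.2 hs
      rw [← hG'] at c1
      rw [c1, hf]
      rw [hne, hf0] at hineq
      omega
  · have c1 := hcc.2 hr
    have hs : (σ * rev G).SameCycle d (rev G d) := hBRC V G σ hσ.src d hr
    have c2 := hsw.1 hs
    rw [← hG'] at c1
    rw [c1, hf, c2]
    rw [hne, hf0] at hineq
    omega

end Pool.Agent.Helper18.AF
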